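import Pool.Agent.H345R2.A3.Mom
import Pool.Agent.H345R2.A2.Lin

/-! Third moments of the local zero counts in short intervals. -/

open Complex Filter Topology Set MeasureTheory

namespace H370.A3

open SP

/-- zeros near a point -/
lemma near_Mk {T x r : ℝ} (hT : 1 ≤ T) (hL : 1 ≤ Real.log T) (hr : 0 ≤ r) (S : Finset ℂ)
    (hS : ∀ s ∈ S, s ∈ ZZ T ∧ |s.im - x| ≤ r / Real.log T) :
    ∑ s ∈ S, (mult riemannZeta s : ℝ) ≤ (1 + r ^ 2) * Real.exp (r ^ 2 / 2) * Mk T 1 x := by
  classical
  have hL0 : 0 < Real.log T := by linarith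
  have h7 : 0 < 1 + r ^ 2 := by positivity
  have h8 : 0 < Real.exp (r ^ 2 / 2) := Real.exp_pos _
  have h6 : (∑ s ∈ S, (mult riemannZeta s : ℝ)) * (Real.exp (-(r ^ 2 / 2)) / (1 + r ^ 2)) ≤
      Mk T 1 x := by
    rw [LG.CTAux.Mk_eq T 1 x hT, Finset.sum_mul]
    calc _ ≤ ∑ s ∈ S, (mu s : ℝ) * Real.exp (-(s.im - x) ^ 2 / 2) /
            (1 + (Real.log T * (s.im - x) / 1) ^ 2) := by
          apply Finset.sum_le_sum
          intro s hs
          obtain ⟨_, hd⟩ := hS s hs
          have hd2 : |Real.log T * (s.im - x) / 1| ≤ r := by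
            rw [div_one, abs_mul, abs_of_pos hL0]
            calc Real.log T * |s.im - x| ≤ Real.log T * (r / Real.log T) :=
                  mul_le_mul_of_nonneg_left hd hL0.le
              _ = r := by field_simp
          have hsq : (Real.log T * (s.im - x) / 1) ^ 2 ≤ r ^ 2 := by
            rw [← sq_abs]
            exact pow_le_pow_left₀ (abs_nonneg _) hd2 2
          have hd3 : |s.im - x| ≤ r := by
            refine hd.trans ?_
            rw [div_le_iff₀ hL0]
            nlinarith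
          have hsq2 : (s.im - x) ^ 2 ≤ r ^ 2 := by
            rw [← sq_abs]
            exact pow_le_pow_left₀ (abs_nonneg _) hd3 2
          rw [mul_div_assoc]
          apply mul_le_mul_of_nonneg_left _ (Nat.cast_nonneg _)
          apply div_le_div₀ (Real.exp_pos _).le _ (by positivity) (by linarith)
          apply Real.exp_le_exp.mpr
          linarith
      _ ≤ _ := by
          apply Finset.sum_le_sum_of_subset_of_nonneg
          · intro s hs
            rw [Set.Finite.mem_toFinset]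
            exact (hS s hs).1
          · intro s _ _
            positivity
  have h9 : (1 + r ^ 2) * Real.exp (r ^ 2 / 2) * (Real.exp (-(r ^ 2 / 2)) / (1 + r ^ 2)) = 1 := by
    rw [Real.exp_neg]
    field_simp
  calc ∑ s ∈ S, (mult riemannZeta s : ℝ) = (1 + r ^ 2) * Real.exp (r ^ 2 / 2) *
        ((∑ s ∈ S, (mult riemannZeta s : ℝ)) * (Real.exp (-(r ^ 2 / 2)) / (1 + r ^ 2))) := by
        rw [mul_left_comm, h9, mul_one]
    _ ≤ _ := mul_le_mul_of_nonneg_left h6 (by positivity)

/-- the number of zeros in `(A, B]` within `ρ` of `s` -/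
noncomputable def kk (A B ρ : ℝ) (s : ℂ) : ℕ :=
  ∑ s' ∈ Zf riemannZeta A B, mult riemannZeta s' * if |s.im - s'.im| ≤ ρ then 1 else 0

lemma kk_cast (A B ρ : ℝ) (s : ℂ) : (kk A B ρ s : ℝ) =
    ∑ s' ∈ (Zf riemannZeta A B).filter (fun s' => |s.im - s'.im| ≤ ρ),
      (mult riemannZeta s' : ℝ) := by
  unfold kk
  push_cast
  rw [Finset.sum_filter]
  refine Finset.sum_congr rfl fun s' _ => ?_
  split_ifs <;> simp

theorem cube_sum (hRH : RHs) (η r : ℝ) (hη : 0 < η) (hη1 : η < 1) (hr : 0 ≤ r) :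
    ∃ C T0 : ℝ, 0 < C ∧ 10 ≤ T0 ∧ ∀ T : ℝ, T0 ≤ T → ∀ A B : ℝ, T + 4 * Real.log T ≤ A →
      B ≤ 2 * T - 4 * Real.log T → T ^ η ≤ B - A →
      ∑ s ∈ Zf riemannZeta A B, (mult riemannZeta s : ℝ) *
        (kk A B (r / Real.log T) s : ℝ) ^ 2 ≤ C * ((B - A) * Real.log T) := by
  classical
  set k : ℕ := ⌈2 / η⌉₊ with hk
  have hk2 : 2 / η ≤ k := Nat.le_ceil _
  have hkη : 2 ≤ η * k := by
    rw [div_le_iff₀ hη] at hk2
    linarith
  have hk1 : 1 ≤ k := by
    rw [hk]
    apply Nat.one_le_ceil_iff.2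
    positivity
  obtain ⟨C4, T4, hC4, hT4, h4⟩ := local4 η hη hη1 k hk1 hkη
  obtain ⟨C1, T1, hC1, hT1, h1⟩ := Mk_bound hRH (1 / 4) (by norm_num) (by norm_num)
  obtain ⟨T2, hT2⟩ := (Real.tendsto_log_atTop.eventually_ge_atTop 1).exists_forall_of_atTop
  have hk0 : (0 : ℝ) < k := by exact_mod_cast hk1
  set K : ℝ := (1 + (r + 1) ^ 2) * Real.exp ((r + 1) ^ 2 / 2) * (C1 * k) with hK
  have hK0 : 0 < K := by positivity
  refine ⟨12 * K ^ 3 * (1 + C4), max T4 (max T1 T2), by positivity,
    hT4.trans (le_max_left _ _), fun T hT A B hA hB hAB => ?_⟩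
  have hTT4 : T4 ≤ T := (le_max_left _ _).trans hT
  have hTT1 : T1 ≤ T := ((le_max_left _ _).trans (le_max_right _ _)).trans hT
  have hL1 : 1 ≤ Real.log T := hT2 T (((le_max_right _ _).trans (le_max_right _ _)).trans hT)
  have hT10 : 10 ≤ T := hT4.trans hTT4
  set L := Real.log T with hL
  have hL0 : 0 < L := by linarith
  have hinv : 1 / L ≤ 1 := by rw [div_le_one hL0]; exact hL1
  have hinv0 : 0 < 1 / L := by positivity
  have hTη : 1 ≤ T ^ η := Real.one_le_rpow (by linarith) hη.le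
  have hAB1 : 1 ≤ B - A := hTη.trans hAB
  have hA1 : 1 ≤ A := by linarith
  set G : ℝ → ℝ := fun x => 1 + ‖Q1 (1 / 4) T k x‖ with hG
  have hGc : Continuous G := continuous_const.add (LG.CTAux.Q1_cont _ T k).norm
  have hG1 : ∀ x, 0 < G x := fun x => by simp only [hG]; positivity
  -- counting by `G`
  have hcount : ∀ x : ℝ, A - 1 / L ≤ x → x ≤ B + 1 / L → ∀ S : Finset ℂ,
      (∀ s ∈ S, s ∈ Zf riemannZeta A B ∧ |s.im - x| ≤ (r + 1) / L) →
      ∑ s ∈ S, (mult riemannZeta s : ℝ) ≤ K * G x := by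
    intro x hx1 hx2 S hS
    have h2 := near_Mk (T := T) (x := x) (r := r + 1) (by linarith) hL1 (by linarith) S fun s hs => by
      obtain ⟨h5, h6⟩ := hS s hs
      rw [mem_Zf good_zeta hA1] at h5
      obtain ⟨a1, a2, a3, a4, a5⟩ := h5
      exact ⟨⟨a1, a2, by linarith, by linarith, a5⟩, h6⟩
    have h3 : Mk T 1 x ≤ C1 * k * G x :=
      (LG.CTAux.Mk_mono_k T x k hk1 (by linarith)).trans
        (h1 T hTT1 x (by linarith) (by linarith) k hk1)
    calc _ ≤ _ := h2
      _ ≤ (1 + (r + 1) ^ 2) * Real.exp ((r + 1) ^ 2 / 2) * (C1 * k * G x) := by gcongr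
      _ = K * G x := by rw [hK]; ring
  set V1 := A - 1 / L with hV1
  set V2 := B + 1 / L with hV2
  have hV : V1 ≤ V2 := by linarith
  set h : ℂ → ℝ → ℝ := fun s => (Set.Icc (s.im - 1 / L) (s.im + 1 / L)).indicator
    (fun _ => (mult riemannZeta s : ℝ) * (kk A B (r / L) s : ℝ) ^ 2) with hh
  have hhi : ∀ s, Integrable (h s) (volume.restrict (Set.Icc V1 V2)) := fun s =>
    (integrable_const _).indicator measurableSet_Icc
  have hlow : ∑ s ∈ Zf riemannZeta A B, (mult riemannZeta s : ℝ) *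
        (kk A B (r / L) s : ℝ) ^ 2 * (2 / L) =
      ∫ x in Set.Icc V1 V2, ∑ s ∈ Zf riemannZeta A B, h s x := by
    rw [integral_finsetSum _ fun s _ => hhi s]
    refine Finset.sum_congr rfl fun s hs => ?_
    rw [mem_Zf good_zeta hA1] at hs
    obtain ⟨a1, a2, a3, a4, a5⟩ := hs
    simp only [hh]
    rw [integral_indicator measurableSet_Icc, Measure.restrict_restrict measurableSet_Icc,
      Set.inter_eq_left.2 (Set.Icc_subset_Icc (by linarith) (by linarith)), setIntegral_const,
      smul_eq_mul]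
    rw [Measure.real, Real.volume_Icc, ENNReal.toReal_ofReal (by linarith)]
    ring
  have hup : ∀ x ∈ Set.Icc V1 V2, ∑ s ∈ Zf riemannZeta A B, h s x ≤ (K * G x) ^ 3 := by
    intro x hx
    have h5 : ∀ s ∈ Zf riemannZeta A B, h s x ≤
        (if |s.im - x| ≤ 1 / L then (mult riemannZeta s : ℝ) else 0) * (K * G x) ^ 2 := by
      intro s hs
      simp only [hh]
      by_cases h6 : x ∈ Set.Icc (s.im - 1 / L) (s.im + 1 / L)
      · have h7 : |s.im - x| ≤ 1 / L := by
          rw [abs_le]; constructor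
          · linarith [h6.2]
          · linarith [h6.1]
        rw [Set.indicator_of_mem h6, if_pos h7]
        have h8 : (kk A B (r / L) s : ℝ) ≤ K * G x := by
          rw [kk_cast]
          apply hcount x hx.1 hx.2
          intro s' hs'
          rw [Finset.mem_filter] at hs'
          refine ⟨hs'.1, ?_⟩
          calc |s'.im - x| ≤ |s'.im - s.im| + |s.im - x| := abs_sub_le _ _ _
            _ ≤ r / L + 1 / L := by
                rw [abs_sub_comm s'.im s.im]
                exact add_le_add hs'.2 h7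
            _ = (r + 1) / L := by ring
        gcongr
      · rw [Set.indicator_of_notMem h6]
        split_ifs
        · positivity
        · simp
    have h6 : ∑ s ∈ (Zf riemannZeta A B).filter (fun s => |s.im - x| ≤ 1 / L),
        (mult riemannZeta s : ℝ) ≤ K * G x := by
      apply hcount x hx.1 hx.2
      intro s hs
      rw [Finset.mem_filter] at hs
      refine ⟨hs.1, hs.2.trans ?_⟩
      gcongr
      linarith
    calc _ ≤ ∑ s ∈ Zf riemannZeta A B,
        (if |s.im - x| ≤ 1 / L then (mult riemannZeta s : ℝ) else 0) * (K * G x) ^ 2 :=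
          Finset.sum_le_sum h5
      _ = (∑ s ∈ (Zf riemannZeta A B).filter (fun s => |s.im - x| ≤ 1 / L),
          (mult riemannZeta s : ℝ)) * (K * G x) ^ 2 := by
          rw [← Finset.sum_mul, Finset.sum_filter]
      _ ≤ (K * G x) * (K * G x) ^ 2 := by gcongr
      _ = _ := by ring
  have hG3 : Continuous fun x => (K * G x) ^ 3 := (continuous_const.mul hGc).pow 3
  have hint : ∫ x in Set.Icc V1 V2, ∑ s ∈ Zf riemannZeta A B, h s x ≤
      ∫ x in V1..V2, (K * G x) ^ 3 := by
    rw [intervalIntegral.integral_of_le hV, ← integral_Icc_eq_integral_Ioc]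
    refine setIntegral_mono_on (integrable_finsetSum _ fun s _ => hhi s)
      hG3.integrableOn_Icc measurableSet_Icc hup
  have hQc : Continuous fun x => ‖Q1 (1 / 4) T k x‖ ^ 4 := (LG.CTAux.Q1_cont _ T k).norm.pow 4
  have hbd : ∫ x in V1..V2, (K * G x) ^ 3 ≤ 8 * K ^ 3 * ((1 + C4) * (V2 - V1)) := by
    calc ∫ x in V1..V2, (K * G x) ^ 3 ≤ ∫ x in V1..V2, 8 * K ^ 3 * (1 + ‖Q1 (1 / 4) T k x‖ ^ 4) := by
          refine intervalIntegral.integral_mono_on hV (hG3.intervalIntegrable _ _)
            ((continuous_const.mul (continuous_const.add hQc)).intervalIntegrable _ _) fun x _ => ?_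
          have hq := norm_nonneg (Q1 (1 / 4) T k x)
          set q := ‖Q1 (1 / 4) T k x‖ with hqdef
          have h9 : (1 + q) ^ 3 ≤ 8 * (1 + q ^ 4) := by
            nlinarith [sq_nonneg (q ^ 2 - q), sq_nonneg (q - 1), sq_nonneg (q ^ 2 - 1),
              mul_nonneg hq hq]
          show (K * (1 + q)) ^ 3 ≤ 8 * K ^ 3 * (1 + q ^ 4)
          rw [mul_pow]
          calc K ^ 3 * (1 + q) ^ 3 ≤ K ^ 3 * (8 * (1 + q ^ 4)) := by gcongr
            _ = _ := by ring
      _ = 8 * K ^ 3 * ((V2 - V1) + ∫ x in V1..V2, ‖Q1 (1 / 4) T k x‖ ^ 4) := by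
          rw [intervalIntegral.integral_const_mul, intervalIntegral.integral_add
            (continuous_const.intervalIntegrable _ _) (hQc.intervalIntegrable _ _),
            intervalIntegral.integral_const, smul_eq_mul, mul_one]
      _ ≤ 8 * K ^ 3 * ((V2 - V1) + C4 * (V2 - V1)) := by
          have := h4 T hTT4 V1 V2 hV (by linarith)
          gcongr
      _ = _ := by ring
  have hVV : V2 - V1 ≤ 3 * (B - A) := by linarith
  have hfin : (∑ s ∈ Zf riemannZeta A B, (mult riemannZeta s : ℝ) *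
        (kk A B (r / L) s : ℝ) ^ 2) * (2 / L) ≤ 8 * K ^ 3 * ((1 + C4) * (3 * (B - A))) := by
    rw [Finset.sum_mul, hlow]
    refine hint.trans (hbd.trans ?_)
    gcongr
  calc ∑ s ∈ Zf riemannZeta A B, (mult riemannZeta s : ℝ) * (kk A B (r / L) s : ℝ) ^ 2 =
      ((∑ s ∈ Zf riemannZeta A B, (mult riemannZeta s : ℝ) *
        (kk A B (r / L) s : ℝ) ^ 2) * (2 / L)) * (L / 2) := by
        field_simp
    _ ≤ (8 * K ^ 3 * ((1 + C4) * (3 * (B - A)))) * (L / 2) := by gcongr
    _ = _ := by ring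

end H370.A3
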