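import Pool.Agent.H345R2.A3.Ker

/-! Lower bound for the number of close pairs in almost all short intervals. -/

open Complex Filter Topology Set MeasureTheory
open scoped BigOperators ComplexConjugate

namespace H370.A3

open H370.A2

/-- cutoff function -/
noncomputable def cut (a b α : ℝ) : ℝ := max 0 (min 1 ((b - |α|) / (b - a)))

lemma cut_nonneg (a b α : ℝ) : 0 ≤ cut a b α := le_max_left _ _

lemma cut_le (a b α : ℝ) : cut a b α ≤ 1 := max_le zero_le_one (min_le_left _ _)

lemma cut_one {a b α : ℝ} (hab : a < b) (h : |α| ≤ a) : cut a b α = 1 := by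
  unfold cut
  have h1 : 1 ≤ (b - |α|) / (b - a) := by
    rw [le_div_iff₀ (by linarith)]; linarith
  rw [min_eq_left h1]
  exact max_eq_right zero_le_one

lemma cut_zero {a b α : ℝ} (hab : a < b) (h : b ≤ |α|) : cut a b α = 0 := by
  unfold cut
  have h1 : (b - |α|) / (b - a) ≤ 0 := div_nonpos_of_nonpos_of_nonneg (by linarith) (by linarith)
  exact max_eq_left ((min_le_right _ _).trans h1)

lemma cut_lip {a b : ℝ} (hab : a < b) (x y : ℝ) :
    |cut a b x - cut a b y| ≤ 1 / (b - a) * |x - y| := by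
  have hba : 0 < b - a := by linarith
  unfold cut
  have h1 := abs_max_sub_max_le_abs (min 1 ((b - |x|) / (b - a))) (min 1 ((b - |y|) / (b - a))) 0
  rw [max_comm 0, max_comm 0]
  refine h1.trans ((abs_min_sub_min_le_max _ _ _ _).trans ?_)
  rw [sub_self, abs_zero, ← sub_div, abs_div, abs_of_pos hba]
  refine max_le (by positivity) ?_
  have h2 : b - |x| - (b - |y|) = |y| - |x| := by ring
  rw [h2, div_eq_mul_inv, mul_comm, ← one_div]
  have h3 := abs_abs_sub_abs_le_abs_sub y x
  rw [abs_sub_comm y x] at h3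
  gcongr

/-- the test function -/
noncomputable def ph (β a b α : ℝ) : ℝ := ps β α * cut a b α

lemma ph_lip {β a b : ℝ} (hβ : 0 ≤ β) (hab : a < b) (x y : ℝ) :
    |ph β a b x - ph β a b y| ≤ (2 * β ^ 2 + β / (b - a)) * |x - y| := by
  have hba : 0 < b - a := by linarith
  have e : ph β a b x - ph β a b y = (ps β x - ps β y) * cut a b x +
      ps β y * (cut a b x - cut a b y) := by
    unfold ph; ring
  rw [e]
  refine (abs_add_le _ _).trans ?_
  rw [abs_mul, abs_mul, abs_of_nonneg (cut_nonneg a b x), abs_of_nonneg (ps_nonneg hβ y)]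
  have h1 := ps_lip hβ x y
  have h2 := cut_lip hab x y
  have h3 := cut_le a b x
  have h4 := ps_le hβ y
  have h5 := ps_nonneg hβ y
  have h6 := cut_nonneg a b x
  calc |ps β x - ps β y| * cut a b x + ps β y * |cut a b x - cut a b y| ≤
      (2 * β ^ 2 * |x - y|) * 1 + β * (1 / (b - a) * |x - y|) := by gcongr
    _ = _ := by ring

/-- the main term -/
noncomputable def gg (β lam : ℝ) : ℝ := β + 2 * β * ∫ α in (0 : ℝ)..lam, α * ss (β * α)

/-- the number of close pairs -/
noncomputable def QQp (β A B L : ℝ) : ℝ :=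
  ∑ s ∈ Zf riemannZeta A B, ∑ s' ∈ Zf riemannZeta A B,
    (mult riemannZeta s : ℝ) * (mult riemannZeta s' : ℝ) *
      (if |s.im - s'.im| ≤ 2 * Real.pi * β / L then 1 else 0)

lemma JN_nonneg (F : ℂ → ℂ) (A B u : ℝ) : 0 ≤ JN F A B u := by
  unfold JN JJ
  exact div_nonneg (integral_nonneg fun t => by positivity) (Real.sqrt_nonneg _)

lemma QQp_ge (hRH : RiemannHypothesis) {β a b A B L : ℝ} (hβ : 0 < β) (hβ1 : β ≤ 1)
    (ha : 0 < a) (hab : a < b) (hb : b ≤ 1) (hA : 1 ≤ A) (hL : 0 < L) :
    ∫ α in (-b)..b, ph β a b α * JN riemannZeta A B (α * L) ≤ QQp β A B L := by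
  have hpi := Real.pi_pos
  have hJc : Continuous fun α : ℝ => JN riemannZeta A B (α * L) := by
    unfold JN
    exact ((JJ_cont good_zeta hA).comp (by fun_prop)).div_const _
  have hphc : Continuous (ph β a b) := by
    have hK : 0 ≤ 2 * β ^ 2 + β / (b - a) := by
      have : 0 < b - a := by linarith
      positivity
    have : LipschitzWith (2 * β ^ 2 + β / (b - a)).toNNReal (ph β a b) := by
      refine LipschitzWith.of_dist_le_mul fun x y => ?_
      rw [Real.dist_eq, Real.dist_eq, Real.coe_toNNReal _ hK]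
      exact ph_lip hβ.le hab x y
    exact this.continuous
  have hb1 : b ≤ 1 / β := by
    rw [le_div_iff₀ hβ]; nlinarith
  have h1 : ∫ α in (-b)..b, ph β a b α * JN riemannZeta A B (α * L) ≤
      ∫ α in (-(1 / β))..(1 / β), ps β α * JN riemannZeta A B (α * L) := by
    calc _ ≤ ∫ α in (-b)..b, ps β α * JN riemannZeta A B (α * L) := by
          refine intervalIntegral.integral_mono_on (by linarith)
            ((hphc.mul hJc).intervalIntegrable _ _) (((ps_cont β).mul hJc).intervalIntegrable _ _)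
            fun α _ => ?_
          apply mul_le_mul_of_nonneg_right _ (JN_nonneg _ _ _ _)
          unfold ph
          exact mul_le_of_le_one_right (ps_nonneg hβ.le α) (cut_le a b α)
      _ ≤ _ := by
          refine intervalIntegral.integral_mono_interval (by linarith) (by linarith) hb1 ?_
            (((ps_cont β).mul hJc).intervalIntegrable _ _)
          exact Filter.Eventually.of_forall fun α =>
            mul_nonneg (ps_nonneg hβ.le α) (JN_nonneg _ _ _ _)
  refine h1.trans ?_
  rw [int_JN hRH hA (ps_cont β)]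
  unfold QQp
  refine Finset.sum_le_sum fun s _ => Finset.sum_le_sum fun s' _ => ?_
  apply mul_le_mul_of_nonneg_left _ (by positivity)
  rw [RR_ps hβ]
  set d := s.im - s'.im with hd
  have he0 := Real.exp_pos (-d ^ 2 / 4)
  have he1 : Real.exp (-d ^ 2 / 4) ≤ 1 := by
    rw [Real.exp_le_one_iff]
    have := sq_nonneg d
    linarith
  split_ifs with h
  · have h2 := HH_le (d * L / (2 * Real.pi) / β)
    rcases le_or_gt (HH (d * L / (2 * Real.pi) / β)) 0 with h3 | h3
    · have := mul_nonpos_of_nonpos_of_nonneg h3 he0.le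
      linarith
    · exact mul_le_one₀ h2 he0.le he1
  · push Not at h
    apply mul_nonpos_of_nonpos_of_nonneg _ he0.le
    apply HH_neg
    rw [abs_div, abs_div, abs_mul, abs_of_pos hL, abs_of_pos hβ,
      abs_of_pos (show 0 < 2 * Real.pi by positivity), div_div, lt_div_iff₀ (by positivity)]
    rw [div_lt_iff₀ hL] at h
    linarith

lemma gg_cont (β : ℝ) : Continuous (gg β) := by
  unfold gg
  apply continuous_const.add
  apply continuous_const.mul
  have hc : Continuous fun α : ℝ => α * ss (β * α) := continuous_id.mul (ss_cont.comp (by fun_prop))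
  exact intervalIntegral.continuous_primitive (fun a b => hc.intervalIntegrable a b) 0

lemma main_ge {β a b : ℝ} (hβ : 0 < β) (hβ1 : β ≤ 1) (ha : 0 < a) (hab : a < b) (hb : b ≤ 1) :
    gg β a ≤ ph β a b 0 + ∫ α in (-b)..b, |α| * ph β a b α := by
  have h0 : ph β a b 0 = β := by
    unfold ph
    rw [ps_zero, cut_one hab (by simp; linarith)]
    ring
  have hK : 0 ≤ 2 * β ^ 2 + β / (b - a) := by
    have : 0 < b - a := by linarith
    positivity
  have hphc : Continuous (ph β a b) := by
    have : LipschitzWith (2 * β ^ 2 + β / (b - a)).toNNReal (ph β a b) := by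
      refine LipschitzWith.of_dist_le_mul fun x y => ?_
      rw [Real.dist_eq, Real.dist_eq, Real.coe_toNNReal _ hK]
      exact ph_lip hβ.le hab x y
    exact this.continuous
  have hc : Continuous fun α : ℝ => |α| * ph β a b α := continuous_abs.mul hphc
  have h1 : ∫ α in (-a)..a, |α| * ph β a b α ≤ ∫ α in (-b)..b, |α| * ph β a b α := by
    refine intervalIntegral.integral_mono_interval (by linarith) (by linarith) hab.le ?_
      (hc.intervalIntegrable _ _)
    exact Filter.Eventually.of_forall fun α => mul_nonneg (abs_nonneg _)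
      (mul_nonneg (ps_nonneg hβ.le α) (cut_nonneg a b α))
  have h2 : ∫ α in (-a)..a, |α| * ph β a b α = 2 * β * ∫ α in (0 : ℝ)..a, α * ss (β * α) := by
    rw [int_sym _ hc, ← intervalIntegral.integral_const_mul]
    refine intervalIntegral.integral_congr fun α hα => ?_
    rw [Set.uIcc_of_le ha.le] at hα
    have hα1 : |α| = α := abs_of_nonneg hα.1
    have hp : ph β a b α = β * ss (β * α) := by
      unfold ph ps
      rw [cut_one hab (by rw [hα1]; exact hα.2), hα1, min_eq_left, mul_one]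
      nlinarith [hα.1, hα.2]
    have hp2 : ph β a b (-α) = β * ss (β * α) := by
      rw [← hp]
      unfold ph ps cut
      rw [abs_neg]
    show |α| * ph β a b α + |(-α)| * ph β a b (-α) = 2 * β * (α * ss (β * α))
    rw [abs_neg, hp, hp2, hα1]
    ring
  rw [h0]
  unfold gg
  linarith

/-- many close pairs in almost all short intervals -/
theorem pair_lower (hRH : RiemannHypothesis) (η0 β ε : ℝ) (hη0 : 0 < η0) (hη1 : η0 < 1)
    (hβ : 0 < β) (hβ1 : β ≤ 1) (hε : 0 < ε) :
    ∃ δ : ℝ, 0 < δ ∧ ∃ T0 : ℝ, 10 ≤ T0 ∧ ∀ T : ℝ, T0 ≤ T → ∀ H : ℝ,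
      T ^ η0 ≤ H → H ≤ T / 8 →
      volume {t : ℝ | t ∈ Set.Icc T (2 * T) ∧
        ¬ ((NN riemannZeta t (t + H) : ℝ) ≤ (1 + ε) * (H * Real.log T / (2 * Real.pi)) ∧
          (gg β ((1 + η0) / 2) - ε) * (H * Real.log T / (2 * Real.pi)) ≤
            QQp β t (t + H) (Real.log T))} ≤ ENNReal.ofReal (T ^ (1 - δ)) := by
  obtain ⟨a, ha0, ha1, ha2⟩ : ∃ a : ℝ, 0 < a ∧ a < (1 + η0) / 2 ∧
      gg β ((1 + η0) / 2) - ε / 2 < gg β a := by
    have e1 : ∀ᶠ x : ℝ in 𝓝[<] ((1 + η0) / 2), x < (1 + η0) / 2 := self_mem_nhdsWithin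
    have e2 : ∀ᶠ x : ℝ in 𝓝[<] ((1 + η0) / 2), 0 < x :=
      nhdsWithin_le_nhds (lt_mem_nhds (by linarith))
    have e3 : ∀ᶠ x : ℝ in 𝓝[<] ((1 + η0) / 2), gg β ((1 + η0) / 2) - ε / 2 < gg β x :=
      nhdsWithin_le_nhds ((gg_cont β).continuousAt.eventually (lt_mem_nhds (by linarith)))
    obtain ⟨x, ⟨h1, h2⟩, h3⟩ := ((e1.and e2).and e3).exists
    exact ⟨x, h2, h1, h3⟩
  set b : ℝ := (a + (1 + η0) / 2) / 2 with hb
  have hab : a < b := by rw [hb]; linarith
  have hb2 : b < (1 + η0) / 2 := by rw [hb]; linarith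
  have hb1 : b ≤ 1 := by linarith
  obtain ⟨δ, hδ, T0, hT0, h⟩ := almost_psi good_zeta lamC_norm (fun s hs _ => ld_zeta s hs)
    le_rfl (bz_rh hRH) η0 b (ε / 2) hη0 hη1 (by linarith) (by linarith) (by linarith)
    (by positivity) (ph β a b) _ (ph_lip hβ.le hab) (fun x hx => by
      unfold ph
      rw [cut_zero hab hx, mul_zero])
  refine ⟨δ, hδ, T0, hT0, fun T hT H hH1 hH2 => (measure_mono ?_).trans (h T hT H hH1 hH2)⟩
  have hT10 : 10 ≤ T := hT0.trans hT
  have hTpos : 0 < T := by linarith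
  have hL : 0 < Real.log T := Real.log_pos (by linarith)
  have hHpos : 0 < H := lt_of_lt_of_le (Real.rpow_pos_of_pos hTpos _) hH1
  set M := H * Real.log T / (2 * Real.pi) with hM
  have hM0 : 0 < M := by have := Real.pi_pos; positivity
  rintro t ⟨ht1, ht2⟩
  refine ⟨ht1, fun hcon => ht2 ?_⟩
  obtain ⟨g1, g2⟩ := hcon
  constructor
  · have h3 := (abs_le.1 g1).2
    have h4 : 0 < ε * M := by positivity
    linarith
  · have h5 := QQp_ge (A := t) (B := t + H) hRH hβ hβ1 ha0 hab hb1 (by linarith [ht1.1]) hL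
    have h6 := (abs_le.1 g2).1
    have h7 := main_ge hβ hβ1 ha0 hab hb1
    have h8 : M * gg β a ≤ M * (ph β a b 0 + ∫ α in (-b)..b, |α| * ph β a b α) := by gcongr
    have h9 : (gg β ((1 + η0) / 2) - ε / 2) * M ≤ gg β a * M := by gcongr
    have h10 : (gg β ((1 + η0) / 2) - ε) * M =
        (gg β ((1 + η0) / 2) - ε / 2) * M - ε / 2 * M := by ring
    rw [h10]
    linarith

end H370.A3
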