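import Pool.Agent.H345R2.A3.Cube
import Pool.Agent.H345R2.A3.Pairs
import Pool.Agent.H345R2.CT.D

/-! Small gaps in almost all short intervals. -/

open Complex Filter Topology Set MeasureTheory

namespace H370.A3

open SP H370.A2
open SG (ord NZ zmult ZS)

lemma on_line (hRH : RiemannHypothesis) {A B : ℝ} (hA : 1 ≤ A) {s : ℂ}
    (hs : s ∈ Zf riemannZeta A B) :
    (1 / 2 + I * s.im : ℂ) = s ∧ A < s.im ∧ s.im ≤ B ∧ riemannZeta (1 / 2 + I * s.im) = 0 := by
  rw [mem_Zf good_zeta hA] at hs
  have h1 := rh_line hRH hs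
  obtain ⟨a1, a2, a3, a4, a5⟩ := hs
  have h2 : (1 / 2 + I * s.im : ℂ) = s := by
    apply Complex.ext
    · simp [h1]
    · simp
  exact ⟨h2, a3, a4, by rw [h2]; exact a5⟩

/-- the index set of close consecutive ordinates -/
def EE' (A B ρ : ℝ) : Set ℕ :=
  {n : ℕ | 1 ≤ n ∧ A < ord n ∧ ord (n + 1) ≤ B ∧ ord (n + 1) - ord n ≤ ρ}

lemma EE_finite (A B ρ : ℝ) : (EE' A B ρ).Finite := by
  refine (Set.finite_Iic (NZ B)).subset ?_
  rintro n ⟨h1, h2, h3, h4⟩
  have h5 := (SG.ord_le_iff (by omega : 1 ≤ n + 1) B).mp h3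
  rw [Set.mem_Iic]
  omega

theorem W_le (hRH : RiemannHypothesis) {A B ρ : ℝ} (hA : 1 ≤ A) (hρ : 0 ≤ ρ) :
    ∑ s ∈ (Zf riemannZeta A B).filter (fun s => 2 ≤ kk A B ρ s), mult riemannZeta s ≤
      2 * (EE' A B ρ).ncard := by
  classical
  set S := (Zf riemannZeta A B).filter (fun s => 2 ≤ kk A B ρ s) with hS
  have hz : ∀ s, zmult s = mult riemannZeta s := fun s => rfl
  set J : ℂ → Finset ℕ := fun s => Finset.Ioc (NZ s.im - mult riemannZeta s) (NZ s.im) with hJ
  have hmle : ∀ s ∈ Zf riemannZeta A B, mult riemannZeta s ≤ NZ s.im := by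
    intro s hs
    obtain ⟨h1, h2, h3, h4⟩ := on_line hRH hA hs
    have := LG.CU.mult_le_NZ (by linarith : 0 < s.im) h4
    rw [h1] at this
    exact this
  have hmpos : ∀ s ∈ Zf riemannZeta A B, 1 ≤ mult riemannZeta s := by
    intro s hs
    obtain ⟨h1, h2, h3, h4⟩ := on_line hRH hA hs
    have := SG.zmult_pos (s := s) (by linarith) (by rw [← h1]; exact h4)
    exact this
  have hord : ∀ s ∈ Zf riemannZeta A B, ∀ n, NZ s.im < n + mult riemannZeta s → n ≤ NZ s.im →
      1 ≤ n → ord n = s.im := by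
    intro s hs n h5 h6 h7
    obtain ⟨h1, h2, h3, h4⟩ := on_line hRH hA hs
    exact LG.CU.ord_eq_of (by linarith) h4 (by rw [h1]; exact h5) h6 h7
  have hcard : ∀ s ∈ Zf riemannZeta A B, (J s).card = mult riemannZeta s := by
    intro s hs
    have := hmle s hs
    rw [hJ, Nat.card_Ioc]
    omega
  have hSZ : ∀ s ∈ S, s ∈ Zf riemannZeta A B := fun s hs => (Finset.mem_filter.1 hs).1
  -- the blocks are disjoint
  have hdisj : (S : Set ℂ).PairwiseDisjoint J := by
    intro s hs s' hs' hne
    rw [Function.onFun, Finset.disjoint_left]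
    intro n hn hn'
    have hs := hSZ s hs
    have hs' := hSZ s' hs'
    rw [hJ, Finset.mem_Ioc] at hn hn'
    have h1 := hmle s hs
    have h2 := hmle s' hs'
    have e1 := hord s hs n (by omega) hn.2 (by omega)
    have e2 := hord s' hs' n (by omega) hn'.2 (by omega)
    apply hne
    obtain ⟨g1, _⟩ := on_line hRH hA hs
    obtain ⟨g2, _⟩ := on_line hRH hA hs'
    rw [← g1, ← g2, ← e1, ← e2]
  have hW : ∑ s ∈ S, mult riemannZeta s = (S.biUnion J).card := by
    rw [Finset.card_biUnion hdisj]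
    exact Finset.sum_congr rfl fun s hs => (hcard s (hSZ s hs)).symm
  set E := (EE_finite A B ρ).toFinset with hE
  have hEc : (EE' A B ρ).ncard = E.card := Set.ncard_eq_toFinset_card _ (EE_finite A B ρ)
  have hsub : S.biUnion J ⊆ E ∪ E.image (· + 1) := by
    intro n hn
    rw [Finset.mem_biUnion] at hn
    obtain ⟨s, hs, hn⟩ := hn
    have hsZ := hSZ s hs
    have hk : 2 ≤ kk A B ρ s := (Finset.mem_filter.1 hs).2
    rw [hJ, Finset.mem_Ioc] at hn
    obtain ⟨hn1, hn2⟩ := hn
    have hm := hmle s hsZ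
    obtain ⟨g1, g2, g3, g4⟩ := on_line hRH hA hsZ
    have en := hord s hsZ n (by omega) hn2 (by omega)
    rw [Finset.mem_union, Finset.mem_image]
    by_cases hm2 : 2 ≤ mult riemannZeta s
    · -- multiple zero
      by_cases hlast : n = NZ s.im
      · right
        refine ⟨n - 1, ?_, by omega⟩
        have e2 := hord s hsZ (n - 1) (by omega) (by omega) (by omega)
        rw [hE, Set.Finite.mem_toFinset]
        have e3 : n - 1 + 1 = n := by omega
        refine ⟨by omega, by rw [e2]; exact g2, by rw [e3, en]; exact g3, ?_⟩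
        rw [e3, en, e2]
        linarith
      · left
        have e2 := hord s hsZ (n + 1) (by omega) (by omega) (by omega)
        rw [hE, Set.Finite.mem_toFinset]
        refine ⟨by omega, by rw [en]; exact g2, by rw [e2]; exact g3, ?_⟩
        rw [e2, en]
        linarith
    · -- another zero
      have hm1 : mult riemannZeta s = 1 := by have := hmpos s hsZ; omega
      obtain ⟨s', hs', hne, hclose⟩ : ∃ s' ∈ Zf riemannZeta A B, s' ≠ s ∧ |s.im - s'.im| ≤ ρ := by
        by_contra hcon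
        push Not at hcon
        have : kk A B ρ s ≤ 1 := by
          unfold kk
          calc ∑ s' ∈ Zf riemannZeta A B, (mult riemannZeta s' *
                if |s.im - s'.im| ≤ ρ then 1 else 0) ≤
              ∑ s' ∈ Zf riemannZeta A B, (if s' = s then 1 else 0) := by
                refine Finset.sum_le_sum fun s' hs' => ?_
                by_cases h : s' = s
                · rw [if_pos h, h, hm1]
                  split_ifs <;> omega
                · rw [if_neg h, if_neg (not_le.2 (hcon s' hs' h))]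
                  omega
            _ ≤ 1 := by
                rw [Finset.sum_ite_eq']
                split_ifs <;> omega
        omega
      obtain ⟨q1, q2, q3, q4⟩ := on_line hRH hA hs'
      have hm' := hmle s' hs'
      have hp' := hmpos s' hs'
      have hneim : s'.im ≠ s.im := by
        intro h
        apply hne
        rw [← q1, ← g1, h]
      obtain ⟨c1, c2⟩ := abs_le.1 hclose
      rcases lt_or_gt_of_ne hneim with h | h
      · -- previous
        right
        have e2 := hord s' hs' (NZ s'.im) (by omega) le_rfl (by omega)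
        have h5 : NZ s'.im < n := by
          by_contra h6
          push Not at h6
          have := SG.ord_mono (by omega : 1 ≤ n) h6
          rw [e2, en] at this
          linarith
        have h6 : s'.im ≤ ord (n - 1) := by
          rw [← e2]
          exact SG.ord_mono (by omega) (by omega)
        refine ⟨n - 1, ?_, by omega⟩
        rw [hE, Set.Finite.mem_toFinset]
        have e3 : n - 1 + 1 = n := by omega
        refine ⟨by omega, by linarith, by rw [e3, en]; exact g3, ?_⟩
        rw [e3, en]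
        linarith
      · -- next
        left
        have e2 := hord s' hs' (NZ s'.im) (by omega) le_rfl (by omega)
        have h5 : n < NZ s'.im := by
          by_contra h6
          push Not at h6
          have := SG.ord_mono (by omega : 1 ≤ NZ s'.im) h6
          rw [e2, en] at this
          linarith
        have h6 : ord (n + 1) ≤ s'.im := by
          rw [← e2]
          exact SG.ord_mono (by omega) (by omega)
        rw [hE, Set.Finite.mem_toFinset]
        refine ⟨by omega, by rw [en]; exact g2, by linarith, ?_⟩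
        rw [en]
        linarith
  rw [hW, hEc]
  calc (S.biUnion J).card ≤ (E ∪ E.image (· + 1)).card := Finset.card_le_card hsub
    _ ≤ E.card + (E.image (· + 1)).card := Finset.card_union_le _ _
    _ ≤ E.card + E.card := by
        have := Finset.card_image_le (s := E) (f := (· + 1))
        omega
    _ = 2 * E.card := by ring

lemma kk_mono (A B : ℝ) {ρ ρ' : ℝ} (h : ρ ≤ ρ') (s : ℂ) : kk A B ρ s ≤ kk A B ρ' s := by
  unfold kk
  refine Finset.sum_le_sum fun s' _ => ?_
  apply Nat.mul_le_mul_left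
  split_ifs with h1 h2
  · exact le_rfl
  · exact absurd (h1.trans h) h2
  · omega
  · exact le_rfl

lemma QQp_kk (β A B L : ℝ) : QQp β A B L = ∑ s ∈ Zf riemannZeta A B,
    (mult riemannZeta s : ℝ) * (kk A B (2 * Real.pi * β / L) s : ℝ) := by
  unfold QQp kk
  refine Finset.sum_congr rfl fun s _ => ?_
  push_cast
  rw [Finset.mul_sum]
  refine Finset.sum_congr rfl fun s' _ => ?_
  ring

/-- Cauchy–Schwarz -/
lemma cs_aux (S : Finset ℂ) (m k : ℂ → ℕ) :
    (∑ s ∈ S, (m s : ℝ) * (k s : ℝ)) ^ 2 ≤ (∑ s ∈ S, (m s : ℝ)) *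
      ∑ s ∈ S, (m s : ℝ) * (k s : ℝ) ^ 2 := by
  refine Finset.sum_sq_le_sum_mul_sum_of_sq_eq_mul S (fun s _ => by positivity)
    (fun s _ => by positivity) fun s _ => by ring

theorem small_gaps (hRH : RiemannHypothesis) (η0 β : ℝ) (hη0 : 0 < η0) (hη1 : η0 < 1)
    (hβ : 0 < β) (hβ1 : β ≤ 1) (hg : 1 < gg β ((1 + η0) / 2)) :
    ∃ c δ : ℝ, 0 < c ∧ 0 < δ ∧ ∃ T0 : ℝ, 10 ≤ T0 ∧ ∀ T : ℝ, T0 ≤ T → ∀ H : ℝ,
      T ^ η0 ≤ H → H ≤ T / 8 →
      volume {t : ℝ | t ∈ Set.Icc T (2 * T) ∧
        ¬ (c * (H * Real.log T) ≤ ((EE' t (t + H) (2 * Real.pi * β / Real.log T)).ncard : ℝ))} ≤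
        ENNReal.ofReal (T ^ (1 - δ)) := by
  classical
  have hRHs : RHs := by
    intro s h1 h2 h0
    apply hRH s h0
    · rintro ⟨k, hk⟩
      have := congrArg Complex.re hk
      simp at this
      have hk0 : (0 : ℝ) ≤ k := Nat.cast_nonneg k
      linarith
    · intro h; rw [h] at h2; simp at h2
  have hpi := Real.pi_pos
  set ε : ℝ := (gg β ((1 + η0) / 2) - 1) / 4 with hε
  have hε0 : 0 < ε := by rw [hε]; linarith
  obtain ⟨δ, hδ, T1, hT1, hP⟩ := pair_lower hRH η0 β ε hη0 hη1 hβ hβ1 hε0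
  obtain ⟨C, T2, hC, hT2, hC2⟩ := cube_sum hRHs (η0 / 2) (4 * Real.pi) (by positivity)
    (by linarith) (by positivity)
  have ev1 : ∀ᶠ T : ℝ in atTop, (2 * T) ^ (η0 / 2) ≤ T ^ η0 := by
    have h1 : ∀ᶠ T : ℝ in atTop, (2 : ℝ) ^ (η0 / 2) ≤ T ^ (η0 / 2) :=
      (tendsto_rpow_atTop (by linarith)).eventually_ge_atTop _
    filter_upwards [h1, eventually_gt_atTop 0] with T h1 h2
    calc (2 * T) ^ (η0 / 2) = 2 ^ (η0 / 2) * T ^ (η0 / 2) := Real.mul_rpow (by norm_num) h2.le
      _ ≤ T ^ (η0 / 2) * T ^ (η0 / 2) := by gcongr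
      _ = T ^ η0 := by rw [← Real.rpow_add h2]; congr 1; ring
  have ev2 : ∀ᶠ T : ℝ in atTop, 8 * Real.log T ≤ T / 20 := by
    have h1 := Real.isLittleO_log_id_atTop.bound (show (0 : ℝ) < 1 / 160 by norm_num)
    filter_upwards [h1, eventually_ge_atTop 1] with T h2 h3
    rw [Real.norm_of_nonneg (Real.log_nonneg h3), id, Real.norm_of_nonneg (by linarith)] at h2
    linarith
  obtain ⟨T3, hT3⟩ := (ev1.and ev2).exists_forall_of_atTop
  set c : ℝ := ε ^ 2 / (4 * Real.pi ^ 2 * C) with hc
  have hc0 : 0 < c := by positivity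
  refine ⟨c, δ, hc0, hδ, max (max 100 T1) (max (2 * T2) T3),
    le_trans (by norm_num) ((le_max_left _ _).trans (le_max_left _ _)), fun T hT H hH1 hH2 =>
    (measure_mono ?_).trans (hP T (((le_max_right _ _).trans (le_max_left _ _)).trans hT) H hH1 hH2)⟩
  have hT100 : 100 ≤ T := ((le_max_left _ _).trans (le_max_left _ _)).trans hT
  have hTT2 : 2 * T2 ≤ T := ((le_max_left _ _).trans (le_max_right _ _)).trans hT
  obtain ⟨e1, e2⟩ := hT3 T (((le_max_right _ _).trans (le_max_right _ _)).trans hT)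
  have hTpos : 0 < T := by linarith
  have hLpos : 0 < Real.log T := Real.log_pos (by linarith)
  have hHpos : 0 < H := lt_of_lt_of_le (Real.rpow_pos_of_pos hTpos _) hH1
  rintro t ⟨ht1, ht2⟩
  refine ⟨ht1, fun hcon => ht2 ?_⟩
  obtain ⟨gN, gQ⟩ := hcon
  set L := Real.log T with hL
  set M := H * L / (2 * Real.pi) with hM
  have hM0 : 0 < M := by positivity
  set ρ := 2 * Real.pi * β / L with hρ
  have hρ0 : 0 ≤ ρ := by positivity
  have hA1 : 1 ≤ t := by linarith [ht1.1]
  -- the third moment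
  have hthird : ∀ Tb : ℝ, T / 2 ≤ Tb → Tb ≤ 2 * T → Tb + 4 * Real.log Tb ≤ t →
      t + H ≤ 2 * Tb - 4 * Real.log Tb →
      ∑ s ∈ Zf riemannZeta t (t + H), (mult riemannZeta s : ℝ) *
        (kk t (t + H) ρ s : ℝ) ^ 2 ≤ 2 * C * (H * L) := by
    intro Tb hb1 hb2 hb3 hb4
    have hTb0 : 0 < Tb := by linarith
    have hlogb : Real.log Tb ≤ 2 * L := by
      have h1 : Real.log Tb ≤ Real.log (T ^ 2) := Real.log_le_log hTb0 (by nlinarith)
      rw [Real.log_pow] at h1
      push_cast at h1
      exact h1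
    have hlogb0 : 0 < Real.log Tb := Real.log_pos (by linarith)
    have h1 := hC2 Tb (by linarith) t (t + H) hb3 hb4 (by
      have : t + H - t = H := by ring
      rw [this]
      calc Tb ^ (η0 / 2) ≤ (2 * T) ^ (η0 / 2) := Real.rpow_le_rpow hTb0.le hb2 (by positivity)
        _ ≤ T ^ η0 := e1
        _ ≤ H := hH1)
    have hH' : t + H - t = H := by ring
    rw [hH'] at h1
    have hρρ : ρ ≤ 4 * Real.pi / Real.log Tb := by
      rw [hρ, div_le_div_iff₀ hLpos hlogb0]
      calc 2 * Real.pi * β * Real.log Tb ≤ 2 * Real.pi * 1 * (2 * L) := by gcongr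
        _ = 4 * Real.pi * L := by ring
    calc _ ≤ ∑ s ∈ Zf riemannZeta t (t + H), (mult riemannZeta s : ℝ) *
        (kk t (t + H) (4 * Real.pi / Real.log Tb) s : ℝ) ^ 2 := by
          refine Finset.sum_le_sum fun s _ => ?_
          have h2 : (kk t (t + H) ρ s : ℝ) ≤ (kk t (t + H) (4 * Real.pi / Real.log Tb) s : ℝ) := by
            exact_mod_cast kk_mono t (t + H) hρρ s
          gcongr
      _ ≤ C * (H * Real.log Tb) := h1
      _ ≤ C * (H * (2 * L)) := by gcongr
      _ = _ := by ring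
  have hthird' : ∑ s ∈ Zf riemannZeta t (t + H), (mult riemannZeta s : ℝ) *
        (kk t (t + H) ρ s : ℝ) ^ 2 ≤ 2 * C * (H * L) := by
    have hlb : ∀ Tb : ℝ, 0 < Tb → Tb ≤ 2 * T → 4 * Real.log Tb ≤ T / 20 := by
      intro Tb h1 h2
      have h3 : Real.log Tb ≤ 2 * L := by
        have h4 : Real.log Tb ≤ Real.log (T ^ 2) := Real.log_le_log h1 (by nlinarith)
        rw [Real.log_pow] at h4
        push_cast at h4
        exact h4
      linarith
    rcases le_or_gt t (3 / 2 * T) with h4 | h4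
    · have := hlb (9 / 10 * T) (by linarith) (by linarith)
      exact hthird (9 / 10 * T) (by linarith) (by linarith) (by linarith [ht1.1])
        (by linarith)
    · have := hlb (27 / 20 * T) (by linarith) (by linarith)
      exact hthird (27 / 20 * T) (by linarith) (by linarith) (by linarith)
        (by linarith [ht1.2])
  -- the zeros with a close neighbour
  set S := (Zf riemannZeta t (t + H)).filter (fun s => 2 ≤ kk t (t + H) ρ s) with hS
  have hNN : (NN riemannZeta t (t + H) : ℝ) = ∑ s ∈ Zf riemannZeta t (t + H),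
      (mult riemannZeta s : ℝ) := by
    rw [NN_eq good_zeta hA1]; push_cast; rfl
  have hSk : 2 * ε * M ≤ ∑ s ∈ S, (mult riemannZeta s : ℝ) * (kk t (t + H) ρ s : ℝ) := by
    have h1 : QQp β t (t + H) L = ∑ s ∈ S, (mult riemannZeta s : ℝ) * (kk t (t + H) ρ s : ℝ) +
        ∑ s ∈ (Zf riemannZeta t (t + H)).filter (fun s => ¬ 2 ≤ kk t (t + H) ρ s),
          (mult riemannZeta s : ℝ) * (kk t (t + H) ρ s : ℝ) := by
      rw [QQp_kk, hS, Finset.sum_filter_add_sum_filter_not]
    have h2 : ∑ s ∈ (Zf riemannZeta t (t + H)).filter (fun s => ¬ 2 ≤ kk t (t + H) ρ s),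
          (mult riemannZeta s : ℝ) * (kk t (t + H) ρ s : ℝ) ≤ NN riemannZeta t (t + H) := by
      rw [hNN]
      calc _ ≤ ∑ s ∈ (Zf riemannZeta t (t + H)).filter (fun s => ¬ 2 ≤ kk t (t + H) ρ s),
          (mult riemannZeta s : ℝ) := by
            refine Finset.sum_le_sum fun s hs => ?_
            have h3 := (Finset.mem_filter.1 hs).2
            have h4 : (kk t (t + H) ρ s : ℝ) ≤ 1 := by
              have : kk t (t + H) ρ s ≤ 1 := by omega
              exact_mod_cast this
            exact mul_le_of_le_one_right (Nat.cast_nonneg _) h4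
        _ ≤ _ := Finset.sum_le_sum_of_subset_of_nonneg (Finset.filter_subset _ _)
            fun _ _ _ => Nat.cast_nonneg _
    have h3 : gg β ((1 + η0) / 2) = 1 + 4 * ε := by rw [hε]; ring
    rw [h3] at gQ
    have h4 : (1 + 4 * ε - ε) * M = (1 + ε) * M + 2 * ε * M := by ring
    rw [h4] at gQ
    linarith
  have hcs := cs_aux S (mult riemannZeta) (kk t (t + H) ρ)
  have hS3 : ∑ s ∈ S, (mult riemannZeta s : ℝ) * (kk t (t + H) ρ s : ℝ) ^ 2 ≤ 2 * C * (H * L) :=
    (Finset.sum_le_sum_of_subset_of_nonneg (Finset.filter_subset _ _)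
      fun _ _ _ => by positivity).trans hthird'
  have hW := W_le hRH (B := t + H) hA1 hρ0
  have hW' : ∑ s ∈ S, (mult riemannZeta s : ℝ) ≤ 2 * ((EE' t (t + H) ρ).ncard : ℝ) := by
    have : ((∑ s ∈ S, mult riemannZeta s : ℕ) : ℝ) ≤ ((2 * (EE' t (t + H) ρ).ncard : ℕ) : ℝ) := by
      exact_mod_cast hW
    push_cast at this
    exact this
  have hW0 : 0 ≤ ∑ s ∈ S, (mult riemannZeta s : ℝ) := Finset.sum_nonneg fun _ _ => Nat.cast_nonneg _
  have hsq : (2 * ε * M) ^ 2 ≤ (∑ s ∈ S, (mult riemannZeta s : ℝ)) * (2 * C * (H * L)) := by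
    calc (2 * ε * M) ^ 2 ≤ (∑ s ∈ S, (mult riemannZeta s : ℝ) * (kk t (t + H) ρ s : ℝ)) ^ 2 := by
          gcongr
      _ ≤ _ := hcs
      _ ≤ _ := by gcongr
  have hHL : 0 < H * L := by positivity
  have hfinal : 2 * c * (H * L) ≤ ∑ s ∈ S, (mult riemannZeta s : ℝ) := by
    have h1 : (2 * ε * M) ^ 2 = (2 * c * (H * L)) * (2 * C * (H * L)) := by
      rw [hM, hc]
      field_simp
      ring
    rw [h1] at hsq
    exact le_of_mul_le_mul_right hsq (by positivity)
  linarith

end H370.A3
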