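import Pool.Agent.H345R2.A2.Smooth

/-! The Selberg kernel. -/

open Complex Filter Topology Set MeasureTheory
open scoped BigOperators ComplexConjugate

namespace H370.A3

open H370.A2

/-- profile of the kernel -/
noncomputable def ss (y : ℝ) : ℝ := 1 - y + Real.sin (2 * Real.pi * y) / (2 * Real.pi)

lemma ss_zero : ss 0 = 1 := by unfold ss; simp

lemma ss_one : ss 1 = 0 := by unfold ss; simp

lemma ss_cont : Continuous ss := by unfold ss; fun_prop

lemma ss_nonneg {y : ℝ} (h1 : y ≤ 1) : 0 ≤ ss y := by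
  have hpi := Real.pi_pos
  have h2 : Real.sin (2 * Real.pi * y) = -Real.sin (2 * Real.pi * (1 - y)) := by
    have : 2 * Real.pi * (1 - y) = 2 * Real.pi - 2 * Real.pi * y := by ring
    rw [this, Real.sin_two_pi_sub, neg_neg]
  have h3 : Real.sin (2 * Real.pi * (1 - y)) ≤ 2 * Real.pi * (1 - y) :=
    Real.sin_le (by nlinarith)
  unfold ss
  rw [h2]
  have h4 : Real.sin (2 * Real.pi * (1 - y)) / (2 * Real.pi) ≤ 1 - y := by
    rw [div_le_iff₀ (by positivity)]
    linarith
  have h5 : -Real.sin (2 * Real.pi * (1 - y)) / (2 * Real.pi) =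
      -(Real.sin (2 * Real.pi * (1 - y)) / (2 * Real.pi)) := by ring
  rw [h5]
  linarith

lemma ss_lip (x y : ℝ) : |ss x - ss y| ≤ 2 * |x - y| := by
  have hpi := Real.pi_pos
  have h1 := Real.abs_sin_sub_sin_le (2 * Real.pi * x) (2 * Real.pi * y)
  have h2 : |2 * Real.pi * x - 2 * Real.pi * y| = 2 * Real.pi * |x - y| := by
    rw [← mul_sub, abs_mul, abs_of_pos (by positivity)]
  rw [h2] at h1
  have e : ss x - ss y = (y - x) +
      (Real.sin (2 * Real.pi * x) - Real.sin (2 * Real.pi * y)) / (2 * Real.pi) := by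
    unfold ss; ring
  rw [e]
  refine (abs_add_le _ _).trans ?_
  rw [abs_div, abs_of_pos (show 0 < 2 * Real.pi by positivity), abs_sub_comm y x]
  have h3 : |Real.sin (2 * Real.pi * x) - Real.sin (2 * Real.pi * y)| / (2 * Real.pi) ≤ |x - y| := by
    rw [div_le_iff₀ (by positivity)]
    linarith
  linarith

lemma ss_le {y : ℝ} (h0 : 0 ≤ y) : ss y ≤ 1 := by
  have hpi := Real.pi_pos
  have h3 : Real.sin (2 * Real.pi * y) ≤ 2 * Real.pi * y := Real.sin_le (by positivity)
  unfold ss
  have h4 : Real.sin (2 * Real.pi * y) / (2 * Real.pi) ≤ y := by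
    rw [div_le_iff₀ (by positivity)]
    linarith
  linarith

/-- the kernel on the Fourier side -/
noncomputable def ps (β α : ℝ) : ℝ := β * ss (min (β * |α|) 1)

lemma ps_cont (β : ℝ) : Continuous (ps β) := by
  unfold ps
  exact continuous_const.mul (ss_cont.comp (by fun_prop))

lemma ps_nonneg {β : ℝ} (hβ : 0 ≤ β) (α : ℝ) : 0 ≤ ps β α :=
  mul_nonneg hβ (ss_nonneg (min_le_right _ _))

lemma ps_le {β : ℝ} (hβ : 0 ≤ β) (α : ℝ) : ps β α ≤ β := by
  unfold ps
  have : ss (min (β * |α|) 1) ≤ 1 := ss_le (le_min (by positivity) zero_le_one)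
  nlinarith

lemma ps_lip {β : ℝ} (hβ : 0 ≤ β) (x y : ℝ) : |ps β x - ps β y| ≤ 2 * β ^ 2 * |x - y| := by
  unfold ps
  rw [← mul_sub, abs_mul, abs_of_nonneg hβ]
  have h1 := ss_lip (min (β * |x|) 1) (min (β * |y|) 1)
  have h2 : |min (β * |x|) 1 - min (β * |y|) 1| ≤ β * |x - y| := by
    refine (abs_min_sub_min_le_max _ _ _ _).trans ?_
    rw [sub_self, abs_zero, ← mul_sub, abs_mul, abs_of_nonneg hβ]
    have h3 := abs_abs_sub_abs_le_abs_sub x y
    refine max_le ?_ (by positivity)
    gcongr
  calc β * |ss (min (β * |x|) 1) - ss (min (β * |y|) 1)| ≤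
      β * (2 * |min (β * |x|) 1 - min (β * |y|) 1|) := by gcongr
    _ ≤ β * (2 * (β * |x - y|)) := by gcongr
    _ = _ := by ring

lemma ps_zero (β : ℝ) : ps β 0 = β := by unfold ps; simp [ss_zero]

/-- the kernel on the physical side -/
noncomputable def HH (z : ℝ) : ℝ := 2 * ∫ y in (0 : ℝ)..1, ss y * Real.cos (2 * Real.pi * z * y)

lemma RR_ps {β : ℝ} (hβ : 0 < β) (x : ℝ) : RR (ps β) (1 / β) x = HH (x / β) := by
  unfold RR HH
  have h1 := int_even (ps_cont β) (f := fun α => Real.cos (2 * Real.pi * α * x)) (by fun_prop)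
    (fun y => by
      show Real.cos (2 * Real.pi * (-y) * x) = Real.cos (2 * Real.pi * y * x)
      have : 2 * Real.pi * (-y) * x = -(2 * Real.pi * y * x) := by ring
      rw [this, Real.cos_neg]) (1 / β)
  rw [h1]
  congr 1
  refine intervalIntegral.integral_congr fun y hy => ?_
  rw [Set.uIcc_of_le zero_le_one] at hy
  have hps : ps β (1 / β * y) = β * ss y := by
    unfold ps
    have e : β * |1 / β * y| = y := by
      rw [abs_mul, abs_of_pos (by positivity : 0 < 1 / β), abs_of_nonneg hy.1]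
      field_simp
    rw [e, min_eq_left hy.2]
  have hps2 : ps β (-(1 / β * y)) = β * ss y := by
    rw [← hps]
    unfold ps
    rw [abs_neg]
  show 1 / β * ((ps β (1 / β * y) + ps β (-(1 / β * y))) / 2) *
    Real.cos (2 * Real.pi * (1 / β * y) * x) = ss y * Real.cos (2 * Real.pi * (x / β) * y)
  rw [hps, hps2]
  have e2 : 2 * Real.pi * (1 / β * y) * x = 2 * Real.pi * (x / β) * y := by ring
  rw [e2]
  field_simp
  ring

lemma int_cos {k : ℝ} (hk : k ≠ 0) :
    ∫ y in (0 : ℝ)..1, (1 - y) * Real.cos (k * y) = (1 - Real.cos k) / k ^ 2 := by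
  have h2 : ∀ y ∈ Set.uIcc (0 : ℝ) 1, HasDerivAt (fun y : ℝ => (1 - y) * Real.sin (k * y) / k -
      Real.cos (k * y) / k ^ 2) ((1 - y) * Real.cos (k * y)) y := by
    intro y _
    have h3 : HasDerivAt (fun y : ℝ => k * y) k y := by
      simpa using (hasDerivAt_id y).const_mul k
    have h4 := h3.sin
    have h5 := h3.cos
    have h6 : HasDerivAt (fun y : ℝ => 1 - y) (-1) y := by
      simpa using (hasDerivAt_id y).const_sub 1
    have h7 := ((h6.mul h4).div_const k).sub (h5.div_const (k ^ 2))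
    refine h7.congr_deriv ?_
    field_simp
    ring
  rw [intervalIntegral.integral_eq_sub_of_hasDerivAt h2
    ((by fun_prop : Continuous fun y : ℝ => (1 - y) * Real.cos (k * y)).intervalIntegrable _ _)]
  simp only [mul_zero, Real.sin_zero, Real.cos_zero, sub_self, zero_mul, zero_div, mul_one]
  ring

lemma int_sin {m : ℝ} (hm : m ≠ 0) :
    ∫ y in (0 : ℝ)..1, Real.sin (m * y) = (1 - Real.cos m) / m := by
  have h2 : ∀ y ∈ Set.uIcc (0 : ℝ) 1, HasDerivAt (fun y : ℝ => -Real.cos (m * y) / m)
      (Real.sin (m * y)) y := by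
    intro y _
    have h3 : HasDerivAt (fun y : ℝ => m * y) m y := by
      simpa using (hasDerivAt_id y).const_mul m
    have h7 := (h3.cos.neg).div_const m
    refine h7.congr_deriv ?_
    field_simp
  rw [intervalIntegral.integral_eq_sub_of_hasDerivAt h2
    ((by fun_prop : Continuous fun y : ℝ => Real.sin (m * y)).intervalIntegrable _ _)]
  simp only [mul_zero, Real.cos_zero, mul_one]
  ring

lemma HH_neg {z : ℝ} (hz : 1 < |z|) : HH z ≤ 0 := by
  have hpi := Real.pi_pos
  set k := 2 * Real.pi * z with hk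
  have hz0 : z ≠ 0 := by
    intro h; rw [h] at hz; simp at hz; linarith
  have hk0 : k ≠ 0 := by rw [hk]; positivity
  have hz2 : 1 < z ^ 2 := by
    rw [← sq_abs]; nlinarith
  have hk2 : 4 * Real.pi ^ 2 < k ^ 2 := by
    rw [hk]
    have : (2 * Real.pi * z) ^ 2 = 4 * Real.pi ^ 2 * z ^ 2 := by ring
    rw [this]
    nlinarith [sq_nonneg Real.pi, pow_pos hpi 2]
  have hp : 2 * Real.pi + k ≠ 0 := by
    intro h
    have : k = -(2 * Real.pi) := by linarith
    rw [this] at hk2
    nlinarith
  have hm : 2 * Real.pi - k ≠ 0 := by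
    intro h
    have : k = 2 * Real.pi := by linarith
    rw [this] at hk2
    nlinarith
  have h1 : ∫ y in (0 : ℝ)..1, ss y * Real.cos (k * y) =
      (1 - Real.cos k) / k ^ 2 + (1 / (4 * Real.pi)) * ((1 - Real.cos k) / (2 * Real.pi + k) +
        (1 - Real.cos k) / (2 * Real.pi - k)) := by
    have e1 : ∀ y : ℝ, ss y * Real.cos (k * y) = (1 - y) * Real.cos (k * y) +
        (1 / (4 * Real.pi)) * (Real.sin ((2 * Real.pi + k) * y) +
          Real.sin ((2 * Real.pi - k) * y)) := by
      intro y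
      have e2 : (2 * Real.pi + k) * y = 2 * Real.pi * y + k * y := by ring
      have e3 : (2 * Real.pi - k) * y = 2 * Real.pi * y - k * y := by ring
      rw [e2, e3, Real.sin_add, Real.sin_sub]
      unfold ss
      field_simp
      ring
    simp_rw [e1]
    rw [intervalIntegral.integral_add (by
        exact (by fun_prop : Continuous fun y : ℝ => (1 - y) * Real.cos (k * y)).intervalIntegrable _ _)
      (by
        exact (by fun_prop : Continuous fun y : ℝ => (1 / (4 * Real.pi)) *
          (Real.sin ((2 * Real.pi + k) * y) +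
          Real.sin ((2 * Real.pi - k) * y))).intervalIntegrable _ _),
      intervalIntegral.integral_const_mul, intervalIntegral.integral_add (by
        exact (by fun_prop : Continuous fun y : ℝ =>
          Real.sin ((2 * Real.pi + k) * y)).intervalIntegrable _ _) (by
        exact (by fun_prop : Continuous fun y : ℝ =>
          Real.sin ((2 * Real.pi - k) * y)).intervalIntegrable _ _), int_cos hk0, int_sin hp,
      int_sin hm]
    have c1 : Real.cos (2 * Real.pi + k) = Real.cos k := by
      rw [add_comm, Real.cos_add_two_pi]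
    have c2 : Real.cos (2 * Real.pi - k) = Real.cos k := Real.cos_two_pi_sub k
    rw [c1, c2]
  unfold HH
  rw [← hk] at *
  rw [h1]
  have h2 : 0 ≤ 1 - Real.cos k := by linarith [Real.cos_le_one k]
  have h3 : (1 - Real.cos k) / k ^ 2 + (1 / (4 * Real.pi)) * ((1 - Real.cos k) / (2 * Real.pi + k) +
        (1 - Real.cos k) / (2 * Real.pi - k)) =
      (1 - Real.cos k) * (4 * Real.pi ^ 2) / (k ^ 2 * (4 * Real.pi ^ 2 - k ^ 2)) := by
    have h4 : 4 * Real.pi ^ 2 - k ^ 2 ≠ 0 := by
      intro h; linarith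
    have h5 : (2 * Real.pi + k) * (2 * Real.pi - k) = 4 * Real.pi ^ 2 - k ^ 2 := by ring
    have h6 : (1 - Real.cos k) / (2 * Real.pi + k) + (1 - Real.cos k) / (2 * Real.pi - k) =
        (1 - Real.cos k) * (4 * Real.pi) / (4 * Real.pi ^ 2 - k ^ 2) := by
      rw [div_add_div _ _ hp hm, h5]
      congr 1
      ring
    rw [h6]
    field_simp
    ring
  rw [h3]
  have h4 : (1 - Real.cos k) * (4 * Real.pi ^ 2) / (k ^ 2 * (4 * Real.pi ^ 2 - k ^ 2)) ≤ 0 := by
    apply div_nonpos_of_nonneg_of_nonpos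
    · positivity
    · apply mul_nonpos_of_nonneg_of_nonpos (by positivity)
      linarith
  linarith

lemma HH_le (z : ℝ) : HH z ≤ 1 := by
  unfold HH
  have h1 : ∫ y in (0 : ℝ)..1, ss y * Real.cos (2 * Real.pi * z * y) ≤ ∫ y in (0 : ℝ)..1, ss y := by
    have hc : Continuous fun y : ℝ => ss y * Real.cos (2 * Real.pi * z * y) :=
      ss_cont.mul (by fun_prop)
    refine intervalIntegral.integral_mono_on zero_le_one (hc.intervalIntegrable _ _)
      (ss_cont.intervalIntegrable _ _) fun y hy => ?_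
    exact mul_le_of_le_one_right (ss_nonneg hy.2) (Real.cos_le_one _)
  have h2 : ∫ y in (0 : ℝ)..1, ss y = 1 / 2 := by
    have h3 : ∀ y ∈ Set.uIcc (0 : ℝ) 1, HasDerivAt (fun y : ℝ => y - y ^ 2 / 2 -
        Real.cos (2 * Real.pi * y) / (2 * Real.pi) ^ 2) (ss y) y := by
      intro y _
      have hpi := Real.pi_pos
      have h4 : HasDerivAt (fun y : ℝ => 2 * Real.pi * y) (2 * Real.pi) y := by
        simpa using (hasDerivAt_id y).const_mul (2 * Real.pi)
      have h5 := h4.cos.div_const ((2 * Real.pi) ^ 2)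
      have h6 : HasDerivAt (fun y : ℝ => y - y ^ 2 / 2) (1 - y) y := by
        have := ((hasDerivAt_id y).fun_pow 2).div_const 2
        have h7 := (hasDerivAt_id y).sub this
        refine h7.congr_deriv ?_
        simp
      refine (h6.sub h5).congr_deriv ?_
      unfold ss
      field_simp
      ring
    rw [intervalIntegral.integral_eq_sub_of_hasDerivAt h3 (ss_cont.intervalIntegrable _ _)]
    simp
    ring
  rw [h2] at h1
  linarith

end H370.A3
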