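import Pool.Agent.H382L.ClusterTail

/-! Local fourth moments of short prime sums, on intervals of any length `T ^ η`. -/

open Complex Filter Topology Set MeasureTheory

namespace H370.A3

open SG (phi hh nn dd dl)
open SP SP.MomQAux

/-- covering by Gaussian windows -/
lemma cover (F : ℝ → ℝ) (hFc : Continuous F) (hF0 : ∀ t, 0 ≤ F t) (D M : ℝ) (hD : 0 < D)
    (hM : ∀ t0, Integrable (fun t => wt t0 D t * F t) ∧ ∫ t, wt t0 D t * F t ≤ M)
    (V1 V2 : ℝ) (hV : V1 ≤ V2) : ∫ t in V1..V2, F t ≤ 2 * M * ((V2 - V1) / D + 1) := by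
  set J := ⌊(V2 - V1) / D⌋₊ with hJ
  have hwc : ∀ t0, Continuous (fun t => wt t0 D t) := fun t0 => by unfold wt; fun_prop
  have hw0 : ∀ t0 t, 0 ≤ wt t0 D t := fun t0 t => (Real.exp_pos _).le
  have hM0 : 0 ≤ M := (integral_nonneg fun t => mul_nonneg (hw0 0 t) (hF0 t)).trans (hM 0).2
  have hpt : ∀ t ∈ Set.Icc V1 V2, F t ≤
      ∑ j ∈ Finset.range (J + 1), 2 * (wt (V1 + j * D) D t * F t) := by
    intro t ht
    set j := ⌊(t - V1) / D⌋₊ with hj
    have hx0 : 0 ≤ (t - V1) / D := div_nonneg (by linarith [ht.1]) hD.le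
    have hj1 : (j : ℝ) ≤ (t - V1) / D := Nat.floor_le hx0
    have hj2 : (t - V1) / D < j + 1 := Nat.lt_floor_add_one _
    rw [le_div_iff₀ hD] at hj1
    rw [div_lt_iff₀ hD] at hj2
    have hjJ : j ∈ Finset.range (J + 1) := by
      rw [Finset.mem_range, Nat.lt_succ_iff]
      apply Nat.floor_le_floor
      apply div_le_div_of_nonneg_right _ hD.le
      linarith [ht.2]
    have hw : 1 / 2 ≤ wt (V1 + j * D) D t := by
      unfold wt
      have h1 : (t - (V1 + j * D)) ^ 2 ≤ D ^ 2 := by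
        apply pow_le_pow_left₀ <;> linarith
      have h2 : -(1 / 2 : ℝ) ≤ -(t - (V1 + j * D)) ^ 2 / (2 * D ^ 2) := by
        rw [le_div_iff₀ (by positivity)]
        linarith
      have h3 := Real.exp_le_exp.mpr h2
      have h4 : 1 - 1 / 2 ≤ Real.exp (-(1 / 2)) := by
        have := Real.add_one_le_exp (-(1 / 2 : ℝ))
        linarith
      linarith
    have h1 : F t ≤ 2 * (wt (V1 + j * D) D t * F t) := by
      have := mul_le_mul_of_nonneg_right hw (hF0 t)
      linarith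
    exact h1.trans (Finset.single_le_sum (f := fun j : ℕ => 2 * (wt (V1 + j * D) D t * F t))
      (fun i _ => mul_nonneg (by norm_num) (mul_nonneg (hw0 _ _) (hF0 t))) hjJ)
  have hci : ∀ j : ℕ, Continuous (fun t => 2 * (wt (V1 + j * D) D t * F t)) := fun j =>
    continuous_const.mul ((hwc _).mul hFc)
  have h1 : ∫ t in V1..V2, F t ≤ ∫ t in V1..V2,
      ∑ j ∈ Finset.range (J + 1), 2 * (wt (V1 + j * D) D t * F t) := by
    apply intervalIntegral.integral_mono_on hV (hFc.intervalIntegrable _ _)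
    · exact (continuous_finsetSum _ fun j _ => hci j).intervalIntegrable _ _
    · exact hpt
  have h2 : ∀ j : ℕ, ∫ t in V1..V2, 2 * (wt (V1 + j * D) D t * F t) ≤ 2 * M := by
    intro j
    obtain ⟨hi, hm⟩ := hM (V1 + j * D)
    rw [intervalIntegral.integral_const_mul, intervalIntegral.integral_of_le hV]
    apply mul_le_mul_of_nonneg_left _ (by norm_num)
    refine le_trans ?_ hm
    exact setIntegral_le_integral hi (Filter.Eventually.of_forall fun t =>
      mul_nonneg (hw0 _ t) (hF0 t))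
  calc ∫ t in V1..V2, F t ≤ _ := h1
    _ = ∑ j ∈ Finset.range (J + 1), ∫ t in V1..V2, 2 * (wt (V1 + j * D) D t * F t) :=
        intervalIntegral.integral_finsetSum fun j _ => (hci j).intervalIntegrable _ _
    _ ≤ ∑ _j ∈ Finset.range (J + 1), 2 * M := Finset.sum_le_sum fun j _ => h2 j
    _ = (J + 1) * (2 * M) := by rw [Finset.sum_const, Finset.card_range, nsmul_eq_mul]; push_cast; ring
    _ ≤ ((V2 - V1) / D + 1) * (2 * M) := by
        have : (J : ℝ) ≤ (V2 - V1) / D := Nat.floor_le (div_nonneg (by linarith) hD.le)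
        gcongr
    _ = _ := by ring

/-- fourth moments of the short prime sum on short intervals -/
theorem local4 (η : ℝ) (hη : 0 < η) (hη1 : η < 1) (k : ℕ) (hk : 1 ≤ k) (hkη : 2 ≤ η * k) :
    ∃ C T0 : ℝ, 0 < C ∧ 10 ≤ T0 ∧ ∀ T : ℝ, T0 ≤ T → ∀ V1 V2 : ℝ, V1 ≤ V2 → T ^ η ≤ V2 - V1 →
      ∫ t in V1..V2, ‖Q1 (1 / 4) T k t‖ ^ 4 ≤ C * (V2 - V1) := by
  set κ : ℝ := 1 / 4 with hκ
  obtain ⟨T0, h10, hT0⟩ := mom_prime κ (by norm_num) (by norm_num)
  obtain ⟨C, hC, hpr⟩ := prime_sq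
  have evT : ∀ᶠ T : ℝ in atTop, T0 ≤ T ^ η :=
    (tendsto_rpow_atTop hη).eventually_ge_atTop _
  obtain ⟨T1, hT1⟩ := evT.exists_forall_of_atTop
  refine ⟨24 * C ^ 2, max 10 T1, by positivity, le_max_left _ _, fun T hT V1 V2 hV hTV => ?_⟩
  have hT10 : 10 ≤ T := (le_max_left _ _).trans hT
  have hTη : T0 ≤ T ^ η := hT1 T ((le_max_right _ _).trans hT)
  have hTpos : 0 < T := by linarith
  have hL : 0 < Real.log T := Real.log_pos (by linarith)
  have hk0 : (0 : ℝ) < k := by exact_mod_cast hk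
  have hk1 : (1 : ℝ) ≤ k := by exact_mod_cast hk
  set T' : ℝ := T ^ η with hT'
  have hT'0 : 0 < T' := by linarith
  have hT'1 : 1 ≤ T' := by linarith
  have hD : 0 < dd κ T' := SG.Deep.dd_pos κ T' hT'0
  have hDT : dd κ T' ≤ T' := by
    unfold SG.dd
    calc T' ^ (1 - κ / 2) ≤ T' ^ (1 : ℝ) :=
          Real.rpow_le_rpow_of_exponent_le hT'1 (by rw [hκ]; norm_num)
      _ = T' := Real.rpow_one T'
  set X := ⌊Real.exp (2 * ell κ T k)⌋₊ with hX
  have h2l : 2 * ell κ T k = (1 - κ) * Real.log T / k := by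
    unfold ell; field_simp
  have hXk : (X : ℝ) ^ 2 ≤ T' ^ (1 - κ) := by
    have h1 : (X : ℝ) ≤ Real.exp (2 * ell κ T k) := Nat.floor_le (Real.exp_pos _).le
    calc (X : ℝ) ^ 2 ≤ (Real.exp (2 * ell κ T k)) ^ 2 :=
          pow_le_pow_left₀ (Nat.cast_nonneg _) h1 2
      _ = Real.exp (2 * ((1 - κ) * Real.log T / k)) := by
          rw [← Real.exp_nat_mul, h2l]
          norm_num
      _ ≤ Real.exp (Real.log T * (η * (1 - κ))) := by
          apply Real.exp_le_exp.2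
          have e : 2 * ((1 - κ) * Real.log T / k) = (Real.log T * (1 - κ)) * (2 / k) := by ring
          have e2 : Real.log T * (η * (1 - κ)) = (Real.log T * (1 - κ)) * η := by ring
          rw [e, e2]
          apply mul_le_mul_of_nonneg_left
          · rw [div_le_iff₀ hk0]; exact hkη
          · apply mul_nonneg hL.le; rw [hκ]; norm_num
      _ = T' ^ (1 - κ) := by
          rw [hT', ← Real.rpow_mul hTpos.le, Real.rpow_def_of_pos hTpos]
  let W := W1 (ell κ T k)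
  have hl : 0 < ell κ T k := by
    unfold ell
    have : 0 < 1 - κ := by rw [hκ]; norm_num
    positivity
  have hW : ∀ u ∈ Set.Icc 0 (Real.log T), ‖W u‖ ≤ 1 := by
    intro u hu
    simp only [W]
    unfold W1
    rw [Complex.norm_real, Real.norm_of_nonneg (by positivity)]
    have h1 : max 0 (1 - |u| / ell κ T k) ≤ 1 := by
      apply max_le (by norm_num)
      have : 0 ≤ |u| / ell κ T k := by positivity
      linarith
    calc _ ≤ (1 : ℝ) ^ 2 := pow_le_pow_left₀ (le_max_left _ _) h1 2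
      _ = 1 := one_pow 2
  let β : ℕ → ℂ := fun p => ((1 / Real.log T : ℝ) : ℂ) * ((Real.log p : ℝ) : ℂ) *
    (p : ℂ) ^ (-(1 / 2 : ℂ)) * bt T W p
  have hQ : ∀ t : ℝ, Q1 κ T k t =
      ∑ p ∈ (Finset.Icc 1 X).filter Nat.Prime, β p * (p : ℂ) ^ (-(I * t)) := by
    intro t
    unfold Q1 QW
    rw [Finset.mul_sum]
    refine Finset.sum_congr rfl fun p hp => ?_
    have hp0 : (p : ℂ) ≠ 0 := by exact_mod_cast (Finset.mem_filter.mp hp).2.ne_zero
    have h1 : (p : ℂ) ^ (-(1 / 2 : ℂ) - I * t) = (p : ℂ) ^ (-(1 / 2 : ℂ)) * (p : ℂ) ^ (-(I * t)) := by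
      rw [← Complex.cpow_add _ _ hp0]
      rfl
    rw [h1]
    simp only [β, W]
    ring
  have hβ : ∑ p ∈ (Finset.Icc 1 X).filter Nat.Prime, ‖β p‖ ^ 2 ≤ C := by
    have h3 : ∀ p ∈ (Finset.Icc 1 X).filter Nat.Prime, ‖β p‖ ^ 2 ≤
        (1 / Real.log T ^ 2) * ((Real.log p) ^ 2 / p) := by
      intro p hp
      have hpp := (Finset.mem_filter.mp hp).2
      have hp0 : (0 : ℝ) < p := by exact_mod_cast hpp.pos
      have h4 : ‖(p : ℂ) ^ (-(1 / 2 : ℂ))‖ ^ 2 = 1 / p := by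
        rw [Complex.norm_natCast_cpow_of_pos hpp.pos, ← Real.rpow_natCast, ← Real.rpow_mul hp0.le]
        have : (-(1 / 2 : ℂ)).re * ((2 : ℕ) : ℝ) = -1 := by
          simp
        rw [this, Real.rpow_neg_one, one_div]
      have h5 : ‖bt T W p‖ ^ 2 ≤ 1 := by
        have := MomQAux.bt_le T (by linarith) W hW p
        calc _ ≤ (1 : ℝ) ^ 2 := pow_le_pow_left₀ (norm_nonneg _) this 2
          _ = 1 := one_pow 2
      simp only [β]
      rw [norm_mul, norm_mul, norm_mul, mul_pow, mul_pow, mul_pow, h4, Complex.norm_real,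
        Complex.norm_real, Real.norm_eq_abs, Real.norm_eq_abs, sq_abs, sq_abs]
      calc (1 / Real.log T) ^ 2 * (Real.log p) ^ 2 * (1 / p) * ‖bt T W p‖ ^ 2
          ≤ (1 / Real.log T) ^ 2 * (Real.log p) ^ 2 * (1 / p) * 1 :=
            mul_le_mul_of_nonneg_left h5 (by positivity)
        _ = _ := by ring
    calc _ ≤ ∑ p ∈ (Finset.Icc 1 X).filter Nat.Prime, (1 / Real.log T ^ 2) * ((Real.log p) ^ 2 / p) :=
          Finset.sum_le_sum h3
      _ = (1 / Real.log T ^ 2) * ∑ p ∈ (Finset.Icc 1 X).filter Nat.Prime, ((Real.log p) ^ 2 / p) := by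
          rw [Finset.mul_sum]
      _ ≤ (1 / Real.log T ^ 2) * (C * (2 * ell κ T k) ^ 2) :=
          mul_le_mul_of_nonneg_left (hpr _ (by linarith)) (by positivity)
      _ = C * ((1 - κ) / k) ^ 2 := by
          rw [h2l]
          field_simp
      _ ≤ C * 1 := by
          apply mul_le_mul_of_nonneg_left _ hC.le
          apply pow_le_one₀
          · apply div_nonneg _ hk0.le; rw [hκ]; norm_num
          · rw [div_le_one hk0]; rw [hκ]; linarith
      _ = C := mul_one C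
  have hM : ∀ t0, Integrable (fun t => wt t0 (dd κ T') t * ‖Q1 κ T k t‖ ^ 4) ∧
      ∫ t, wt t0 (dd κ T') t * ‖Q1 κ T k t‖ ^ 4 ≤ 6 * dd κ T' * C ^ 2 := by
    intro t0
    obtain ⟨h1, h2⟩ := hT0 T' hTη t0 2 X β (by norm_num) hXk
    simp_rw [hQ]
    refine ⟨h1, h2.trans ?_⟩
    have h3 : ((2 : ℕ).factorial : ℝ) = 2 := by norm_num
    rw [h3]
    have h4 : (∑ p ∈ (Finset.Icc 1 X).filter Nat.Prime, ‖β p‖ ^ 2) ^ 2 ≤ C ^ 2 :=
      pow_le_pow_left₀ (Finset.sum_nonneg fun _ _ => by positivity) hβ 2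
    calc 3 * dd κ T' * 2 * (∑ p ∈ (Finset.Icc 1 X).filter Nat.Prime, ‖β p‖ ^ 2) ^ 2 ≤
        3 * dd κ T' * 2 * C ^ 2 := by gcongr
      _ = _ := by ring
  have hcov := cover (fun t => ‖Q1 κ T k t‖ ^ 4) ((LG.CTAux.Q1_cont κ T k).norm.pow 4)
    (fun t => by positivity) (dd κ T') _ hD hM V1 V2 hV
  refine hcov.trans ?_
  have h5 : 2 * (6 * dd κ T' * C ^ 2) * ((V2 - V1) / dd κ T' + 1) =
      12 * C ^ 2 * ((V2 - V1) + dd κ T') := by
    field_simp
    ring
  rw [h5]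
  have h6 : (V2 - V1) + dd κ T' ≤ 2 * (V2 - V1) := by linarith
  calc 12 * C ^ 2 * ((V2 - V1) + dd κ T') ≤ 12 * C ^ 2 * (2 * (V2 - V1)) := by gcongr
    _ = _ := by ring

end H370.A3
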