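import Pool.Agent.H345R2.A3.Gap

/-! Final form of the small gaps theorem. -/

open Complex Filter Topology Set MeasureTheory

namespace H370.A3

open SP H370.A2
open SG (ord NZ)

lemma sin_lower {x : ℝ} (h0 : 0 ≤ x) : x * (1 - x / Real.pi) ≤ Real.sin x := by
  have hpi := Real.pi_pos
  have key : ∀ y : ℝ, 0 ≤ y → y ≤ Real.pi / 2 → y * (1 - y / Real.pi) ≤ Real.sin y := by
    have hmono : MonotoneOn (fun y : ℝ => Real.sin y - y * (1 - y / Real.pi))
        (Set.Icc 0 (Real.pi / 2)) := by
      have hd : ∀ y : ℝ, HasDerivAt (fun y : ℝ => Real.sin y - y * (1 - y / Real.pi))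
          (Real.cos y - (1 - 2 / Real.pi * y)) y := by
        intro y
        have h3 : HasDerivAt (fun y : ℝ => 1 - y / Real.pi) (-(1 / Real.pi)) y := by
          have := ((hasDerivAt_id y).div_const Real.pi).const_sub 1
          simpa using this
        have h4 := (Real.hasDerivAt_sin y).sub ((hasDerivAt_id y).mul h3)
        refine h4.congr_deriv ?_
        simp only [id]
        ring
      apply monotoneOn_of_deriv_nonneg (convex_Icc 0 (Real.pi / 2))
      · exact fun y _ => (hd y).continuousAt.continuousWithinAt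
      · exact fun y _ => (hd y).differentiableAt.differentiableWithinAt
      · intro y hy
        rw [interior_Icc] at hy
        rw [(hd y).deriv]
        have := Real.one_sub_mul_le_cos hy.1.le hy.2.le
        linarith
    intro y hy0 hy1
    have h2 := hmono (show (0 : ℝ) ∈ Set.Icc (0 : ℝ) (Real.pi / 2) from ⟨le_rfl, by positivity⟩)
      (show y ∈ Set.Icc (0 : ℝ) (Real.pi / 2) from ⟨hy0, hy1⟩) hy0
    simp only at h2
    norm_num at h2
    linarith
  rcases le_or_gt x (Real.pi / 2) with h | h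
  · exact key x h0 h
  · rcases le_or_gt x Real.pi with h1 | h1
    · have h2 := key (Real.pi - x) (by linarith) (by linarith)
      rw [Real.sin_pi_sub] at h2
      have h3 : (Real.pi - x) * (1 - (Real.pi - x) / Real.pi) = x * (1 - x / Real.pi) := by
        field_simp
        ring
      rw [h3] at h2
      exact h2
    · have h2 : Real.sin (x - Real.pi) ≤ x - Real.pi := Real.sin_le (by linarith)
      rw [Real.sin_sub_pi] at h2
      have h3 : x * (1 - x / Real.pi) ≤ Real.pi - x := by
        have h4 : x * (1 - x / Real.pi) = x * (Real.pi - x) / Real.pi := by field_simp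
        rw [h4, div_le_iff₀ hpi]
        nlinarith
      linarith

lemma gg_lower {β lam : ℝ} (hβ : 0 ≤ β) (hlam : 0 ≤ lam) :
    β * (1 + lam ^ 2 - β ^ 2 * lam ^ 4) ≤ gg β lam := by
  have hpi := Real.pi_pos
  have hc : Continuous fun α : ℝ => α * ss (β * α) :=
    continuous_id.mul (ss_cont.comp (by fun_prop))
  have e2 : ∫ α in (0 : ℝ)..lam, (α - 2 * β ^ 2 * α ^ 3) ≤
      ∫ α in (0 : ℝ)..lam, α * ss (β * α) := by
    refine intervalIntegral.integral_mono_on hlam
      ((by fun_prop : Continuous fun α : ℝ => α - 2 * β ^ 2 * α ^ 3).intervalIntegrable _ _)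
      (hc.intervalIntegrable _ _) fun α hα => ?_
    have hα0 := hα.1
    have h3 := sin_lower (x := 2 * Real.pi * (β * α)) (by positivity)
    have h4 : 2 * Real.pi * (β * α) * (1 - 2 * Real.pi * (β * α) / Real.pi) =
        2 * Real.pi * ((β * α) * (1 - 2 * (β * α))) := by
      field_simp
    rw [h4] at h3
    have h6 : (β * α) * (1 - 2 * (β * α)) ≤ Real.sin (2 * Real.pi * (β * α)) / (2 * Real.pi) := by
      rw [le_div_iff₀ (by positivity)]
      linarith
    have h7 : 1 - 2 * (β * α) ^ 2 ≤ ss (β * α) := by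
      unfold ss
      linarith
    calc α - 2 * β ^ 2 * α ^ 3 = α * (1 - 2 * (β * α) ^ 2) := by ring
      _ ≤ _ := by gcongr
  have e3 : ∫ α in (0 : ℝ)..lam, (α - 2 * β ^ 2 * α ^ 3) = lam ^ 2 / 2 - β ^ 2 * lam ^ 4 / 2 := by
    have q1 : Continuous fun α : ℝ => α := continuous_id
    have q2 : Continuous fun α : ℝ => 2 * β ^ 2 * α ^ 3 := by fun_prop
    rw [intervalIntegral.integral_sub (q1.intervalIntegrable _ _) (q2.intervalIntegrable _ _),
      intervalIntegral.integral_const_mul, integral_id, integral_pow]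
    push_cast
    ring
  rw [e3] at e2
  unfold gg
  calc β * (1 + lam ^ 2 - β ^ 2 * lam ^ 4) =
      β + 2 * β * (lam ^ 2 / 2 - β ^ 2 * lam ^ 4 / 2) := by ring
    _ ≤ _ := by gcongr

lemma gg_cont_beta (lam : ℝ) : Continuous fun β : ℝ => gg β lam := by
  unfold gg
  have h1 : Continuous fun β : ℝ => ∫ α in (0 : ℝ)..lam, α * ss (β * α) :=
    intervalIntegral.continuous_parametric_intervalIntegral_of_continuous' (by
      show Continuous (Function.uncurry fun β α : ℝ => α * ss (β * α))
      unfold Function.uncurry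
      exact continuous_snd.mul (ss_cont.comp (by fun_prop))) _ _
  exact continuous_id.add ((continuous_const.mul continuous_id).mul h1)

lemma xlog_aux {x y : ℝ} (hx : 0 < x) (hxy : x ≤ y) :
    y * Real.log y - x * Real.log x ≤ (y - x) * (Real.log y + 1) := by
  have hy : 0 < y := hx.trans_le hxy
  have h1 := Real.log_le_sub_one_of_pos (div_pos hy hx)
  rw [Real.log_div hy.ne' hx.ne'] at h1
  have h2 : x * (Real.log y - Real.log x) ≤ x * (y / x - 1) := mul_le_mul_of_nonneg_left h1 hx.le
  have h3 : x * (y / x - 1) = y - x := by field_simp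
  rw [h3] at h2
  linarith

/-- small normalised gaps in almost all short intervals -/
theorem small_delta (hRH : RiemannHypothesis) (η0 β : ℝ) (hη0 : 0 < η0) (hη1 : η0 < 1)
    (hβ : 0 < β) (hβ1 : β ≤ 1) (hg : 1 < gg β ((1 + η0) / 2)) :
    ∃ c δ : ℝ, 0 < c ∧ 0 < δ ∧ ∃ T0 : ℝ, ∀ T : ℝ, T0 ≤ T → ∀ H : ℝ,
      T ^ η0 ≤ H → H ≤ T / 8 →
      volume {t : ℝ | T ≤ t ∧ t ≤ 2 * T ∧
        ({n : ℕ | 1 ≤ n ∧ t < ord n ∧ ord n ≤ t + H ∧
          (ord (n + 1) * Real.log (ord (n + 1)) - ord n * Real.log (ord n)) /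
            (2 * Real.pi) < β}.ncard : ℝ) < c * (H * Real.log T)} ≤
        ENNReal.ofReal (T ^ (1 - δ)) := by
  have hpi := Real.pi_pos
  obtain ⟨b, hb0, hb1, hb2⟩ : ∃ b : ℝ, 0 < b ∧ b < β ∧ 1 < gg b ((1 + η0) / 2) := by
    have e1 : ∀ᶠ x : ℝ in 𝓝[<] β, x < β := self_mem_nhdsWithin
    have e2 : ∀ᶠ x : ℝ in 𝓝[<] β, 0 < x := nhdsWithin_le_nhds (lt_mem_nhds hβ)
    have e3 : ∀ᶠ x : ℝ in 𝓝[<] β, 1 < gg x ((1 + η0) / 2) :=
      nhdsWithin_le_nhds ((gg_cont_beta _).continuousAt.eventually (lt_mem_nhds hg))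
    obtain ⟨x, ⟨h1, h2⟩, h3⟩ := ((e1.and e2).and e3).exists
    exact ⟨x, h2, h1, h3⟩
  obtain ⟨c, δ, hc, hδ, T0, hT0, h⟩ := small_gaps hRH η0 b hη0 hη1 hb0 (by linarith) hb2
  obtain ⟨T1, hT1⟩ := (Real.tendsto_log_atTop.eventually_ge_atTop
    (3 * b / (β - b) + 1)).exists_forall_of_atTop
  refine ⟨c, δ, hc, hδ, max T0 T1, fun T hT H hH1 hH2 =>
    (measure_mono ?_).trans (h T ((le_max_left _ _).trans hT) H hH1 hH2)⟩
  have hT10 : 10 ≤ T := (hT0.trans (le_max_left _ _)).trans hT
  have hL1 := hT1 T ((le_max_right _ _).trans hT)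
  have hTpos : 0 < T := by linarith
  have hLpos : 0 < Real.log T := Real.log_pos (by linarith)
  rintro t ⟨ht1, ht2, ht3⟩
  refine ⟨⟨ht1, ht2⟩, fun hcon => ?_⟩
  have hsub : EE' t (t + H) (2 * Real.pi * b / Real.log T) ⊆
      {n : ℕ | 1 ≤ n ∧ t < ord n ∧ ord n ≤ t + H ∧
          (ord (n + 1) * Real.log (ord (n + 1)) - ord n * Real.log (ord n)) /
            (2 * Real.pi) < β} := by
    rintro n ⟨h1, h2, h3, h4⟩
    have hm := SG.ord_mono h1 (Nat.le_succ n)
    have hx0 : 0 < ord n := SG.ord_pos h1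
    refine ⟨h1, h2, hm.trans h3, ?_⟩
    have h5 := xlog_aux hx0 hm
    have hy : ord (n + 1) ≤ 3 * T := by linarith
    have hlog : Real.log (ord (n + 1)) + 1 ≤ Real.log T + 3 := by
      have h6 : Real.log (ord (n + 1)) ≤ Real.log (3 * T) :=
        Real.log_le_log (hx0.trans_le hm) hy
      rw [Real.log_mul (by norm_num) hTpos.ne'] at h6
      have h7 : Real.log 3 ≤ 2 := by
        have := Real.log_le_sub_one_of_pos (show (0 : ℝ) < 3 by norm_num)
        linarith
      linarith
    have hlog0 : 0 ≤ Real.log (ord (n + 1)) + 1 := by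
      have : 0 ≤ Real.log (ord (n + 1)) := Real.log_nonneg (by linarith)
      linarith
    rw [div_lt_iff₀ (by positivity)]
    calc _ ≤ (ord (n + 1) - ord n) * (Real.log (ord (n + 1)) + 1) := h5
      _ ≤ (2 * Real.pi * b / Real.log T) * (Real.log T + 3) := by
          gcongr
      _ = b * (1 + 3 / Real.log T) * (2 * Real.pi) := by field_simp
      _ < β * (2 * Real.pi) := by
          apply mul_lt_mul_of_pos_right _ (by positivity)
          have h8 : 3 * b / (β - b) < Real.log T := by linarith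
          rw [div_lt_iff₀ (by linarith)] at h8
          have h9 : b * (1 + 3 / Real.log T) = b + 3 * b / Real.log T := by ring
          rw [h9]
          have h10 : 3 * b / Real.log T < β - b := by
            rw [div_lt_iff₀ hLpos]; linarith
          linarith
  have hfin : {n : ℕ | 1 ≤ n ∧ t < ord n ∧ ord n ≤ t + H ∧
          (ord (n + 1) * Real.log (ord (n + 1)) - ord n * Real.log (ord n)) /
            (2 * Real.pi) < β}.Finite := by
    refine (Set.finite_Iic (NZ (t + H))).subset ?_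
    rintro n ⟨h1, h2, h3, h4⟩
    exact (SG.ord_le_iff h1 _).mp h3
  have hle := Set.ncard_le_ncard hsub hfin
  have hle' := (Nat.cast_le (α := ℝ)).2 hle
  exact absurd ((hcon.trans hle').trans_lt ht3) (lt_irrefl _)

end H370.A3
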